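import Pool.Agent.X32.Uni.Exact

/-!
# Chen's theorem for the numbers `n, a_1 n + 1, ..., a_s n + 1`

For every admissible set `A = {a_1, ..., a_s}` and any two different members `i`, `j` of the `s + 1` numbers
`n, a_1 n + 1, ..., a_s n + 1` there are at least `κ (Z - Y) / log ^ (s + 1) X` integers `n` in every interval
`(Y, Z]`, `Z ≤ X`, `Z - Y ≥ θ X`, for which the member `i` is prime, the member `j` is a product of at most two
primes, both `> X ^ (1/9)`, all members are products of at most `t` primes `> X ^ (1/t)`, and all the numbers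
`b n + 1`, `b ∈ T`, have a prime factor `≤ C`, where `T` is a given finite set of multipliers outside of `A`. This
is the order of magnitude in Q1. Every subset with at least `δ (Z - Y) / log ^ (s + 1) X` elements of the set of
these `n` contains `r` terms of an arithmetic progression with difference at most a power of `log X`.

Core of the proof: `Pool.Agent.X32.Uni.exactU` of the starting library (never handed in).
-/

set_option autoImplicit false

namespace Pool.Agent.Results.MP_bca3e5_nt.ChenMultipliers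

open Finset

/-- the set `A` of positive integers is admissible -/
def Admissible (A : Finset ℕ) : Prop :=
  ∀ p : ℕ, p.Prime → ¬ ∀ n : ℕ, 1 ≤ n → p ∣ n * ∏ a ∈ A, (a * n + 1)

/-- the members: `member n 0 = n` and `member n a = a n + 1` for `a ≥ 1` -/
def member (n a : ℕ) : ℕ := if a = 0 then n else a * n + 1

/-- `v > 1` is a product of at most `r` primes, all of them larger than `y` -/
def Almost (r : ℕ) (y : ℝ) (v : ℕ) : Prop :=
  1 < v ∧ v.primeFactorsList.length ≤ r ∧ ∀ q : ℕ, q.Prime → q ∣ v → y < q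

open Classical in
/-- the `n` in `(Y, Z]` for which the member `i` is prime, the member `j` is a product of at most two primes
`> X ^ (1/9)`, the members `n` and `a n + 1`, `a ∈ A`, are products of at most `t` primes `> X ^ (1/t)`, and the
numbers `b n + 1`, `b ∈ T`, have a prime factor `≤ C` -/
noncomputable def Good (A T : Finset ℕ) (i j C t X Y Z : ℕ) : Finset ℕ :=
  (Ioc Y Z).filter (fun n : ℕ => (member n i).Prime ∧ Almost 2 ((X : ℝ) ^ (1 / 9 : ℝ)) (member n j) ∧
    (∀ a ∈ insert 0 A, Almost t ((X : ℝ) ^ (1 / (t : ℝ))) (member n a)) ∧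
    ∀ b ∈ T, ∃ q : ℕ, q.Prime ∧ q ≤ C ∧ q ∣ b * n + 1)

/-- the coefficients -/
def ca (a : ℕ) : ℤ := if a = 0 then 1 else a
/-- the coefficients -/
def cb (a : ℕ) : ℤ := if a = 0 then 0 else 1

theorem mem_eq (n a : ℕ) : ca a * (n : ℤ) + cb a = (member n a : ℤ) := by
  unfold ca cb member
  split_ifs
  · simp
  · push_cast
    ring

theorem ca_ne (a : ℕ) : ca a ≠ 0 := by
  unfold ca
  split_ifs with h
  · exact one_ne_zero
  · exact_mod_cast h

theorem det_ne {a b : ℕ} (h : a ≠ b) : ca a * cb b - ca b * cb a ≠ 0 := by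
  unfold ca cb
  split_ifs with h1 h2 h2
  · exact absurd (h1.trans h2.symm) h
  · simp
  · simp
  · intro h3
    apply h
    have h4 : (a : ℤ) = b := by linarith
    exact_mod_cast h4

theorem almost_iff (r : ℕ) (y : ℝ) (v : ℕ) : Pool.Agent.X32.Uni.Almost r y (v : ℤ) ↔ Almost r y v := by
  unfold Pool.Agent.X32.Uni.Almost Almost
  rw [Nat.abs_cast, Int.natAbs_natCast]
  constructor
  · rintro ⟨h1, h2, h3⟩
    exact ⟨by exact_mod_cast h1, h2, fun q hq hd => h3 q hq (by exact_mod_cast hd)⟩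
  · rintro ⟨h1, h2, h3⟩
    exact ⟨by exact_mod_cast h1, h2, fun q hq hd => h3 q hq (by exact_mod_cast hd)⟩

theorem result (A T : Finset ℕ) (hA : ∀ a ∈ A, 1 ≤ a) (hadm : Admissible A) (hT : ∀ b ∈ T, 1 ≤ b)
    (hAT : Disjoint A T) (i j : ℕ) (hi : i ∈ insert 0 A) (hj : j ∈ insert 0 A) (hij : i ≠ j) :
    ∃ C t : ℕ, 1 ≤ t ∧ ∃ κ : ℝ, 0 < κ ∧ ∀ (r : ℕ) (θ δ : ℝ), 0 < θ → 0 < δ → ∃ c X₀ : ℕ, ∀ X : ℕ, X₀ ≤ X →
      ∀ Y Z : ℕ, Z ≤ X → θ * X ≤ (Z : ℝ) - Y →
        κ * ((Z : ℝ) - Y) / Real.log X ^ (A.card + 1) ≤ ((Good A T i j C t X Y Z).card : ℝ) ∧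
        ∀ S : Finset ℕ, S ⊆ Good A T i j C t X Y Z → δ * ((Z : ℝ) - Y) / Real.log X ^ (A.card + 1) ≤ S.card →
          ∃ n d : ℕ, 1 ≤ d ∧ (d : ℝ) ≤ Real.log X ^ c ∧ ∀ l < r, n + l * d ∈ S := by
  classical
  have h0A : 0 ∉ A := fun h => by
    have := hA 0 h
    omega
  have h0T : 0 ∉ T := fun h => by
    have := hT 0 h
    omega
  obtain ⟨k, hk⟩ : ∃ k, k = (insert 0 A).card := ⟨_, rfl⟩
  have hkA : k = A.card + 1 := by rw [hk, card_insert_of_notMem h0A]
  let σ : {x // x ∈ insert 0 A} ≃ Fin k := (insert 0 A).equivFinOfCardEq hk.symm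
  let g : Fin k → ℕ := fun l => (σ.symm l).1
  have hgF : ∀ l, g l ∈ insert 0 A := fun l => (σ.symm l).2
  have hginj : ∀ l m, l ≠ m → g l ≠ g m := fun l m hlm h => hlm (σ.symm.injective (Subtype.ext h))
  have hgσ : ∀ x (hx : x ∈ insert 0 A), g (σ ⟨x, hx⟩) = x := fun x hx => by
    show (σ.symm (σ ⟨x, hx⟩)).1 = x
    rw [Equiv.symm_apply_apply]
  let a : Fin k → ℤ := fun l => ca (g l)
  let b : Fin k → ℤ := fun l => cb (g l)
  let T' : Finset (ℤ × ℤ) := T.image (fun x : ℕ => ((x : ℤ), (1 : ℤ)))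
  have hcT : ∀ x ∈ T, ca x = (x : ℤ) ∧ cb x = 1 := by
    intro x hx
    have hx0 : x ≠ 0 := by
      have := hT x hx
      omega
    unfold ca cb
    rw [if_neg hx0, if_neg hx0]
    exact ⟨rfl, rfl⟩
  obtain ⟨C, t, ht, κ, hκ, H⟩ := Pool.Agent.X32.Uni.exactU a b (by
      intro p hp
      have h1 := hadm p hp
      push Not at h1
      obtain ⟨n, _, hn2⟩ := h1
      refine ⟨(n : ℤ), fun l hd => hn2 ?_⟩
      have h2 : (p : ℤ) ∣ (member n (g l) : ℤ) := by
        rw [← mem_eq]
        exact hd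
      have h3 : p ∣ member n (g l) := by exact_mod_cast h2
      rcases mem_insert.1 (hgF l) with h4 | h4
      · rw [h4] at h3
        unfold member at h3
        rw [if_pos rfl] at h3
        exact h3.mul_right _
      · have h5 : g l ≠ 0 := fun h => h0A (h ▸ h4)
        unfold member at h3
        rw [if_neg h5] at h3
        exact (h3.trans (dvd_prod_of_mem (fun a => a * n + 1) h4)).mul_left _)
    (fun l => ca_ne _) (fun l m hlm => det_ne (hginj l m hlm))
    (σ ⟨i, hi⟩) (σ ⟨j, hj⟩) (fun h => hij (by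
      have := σ.injective h
      exact congrArg Subtype.val this)) T' (by
      intro τ hτ
      obtain ⟨x, hx, rfl⟩ := mem_image.1 hτ
      have h1 := hT x hx
      show (x : ℤ) ≠ 0
      omega) (by
      intro τ hτ l
      obtain ⟨x, hx, rfl⟩ := mem_image.1 hτ
      have h1 : x ≠ g l := by
        intro h
        rcases mem_insert.1 (hgF l) with h4 | h4
        · exact h0T (h4 ▸ h ▸ hx)
        · exact Finset.disjoint_left.1 hAT h4 (h ▸ hx)
      have h2 := det_ne h1
      rw [(hcT x hx).1, (hcT x hx).2] at h2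
      exact h2)
  have hGood : ∀ X Y Z : ℕ, Pool.Agent.X32.Uni.GE' a b T' (σ ⟨i, hi⟩) (σ ⟨j, hj⟩) C t X Y Z =
      Good A T i j C t X Y Z := by
    intro X Y Z
    unfold Pool.Agent.X32.Uni.GE' Good
    ext n
    have hterm : ∀ l, a l * (n : ℤ) + b l = (member n (g l) : ℤ) := fun l => mem_eq n (g l)
    simp only [mem_filter, hterm, hgσ, Int.natAbs_natCast, almost_iff]
    refine and_congr_right fun _ => and_congr_right fun _ => and_congr_right fun _ => and_congr ?_ ?_
    · constructor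
      · intro h x hx
        have h1 := h (σ ⟨x, hx⟩)
        rwa [hgσ] at h1
      · intro h l
        exact h _ (hgF l)
    · constructor
      · intro h x hx
        obtain ⟨q, h1, h2, h3⟩ := h _ (mem_image_of_mem _ hx)
        refine ⟨q, h1, h2, ?_⟩
        have h4 : (q : ℤ) ∣ ((x * n + 1 : ℕ) : ℤ) := by
          push_cast
          exact h3
        exact_mod_cast h4
      · intro h τ hτ
        obtain ⟨x, hx, rfl⟩ := mem_image.1 hτ
        obtain ⟨q, h1, h2, h3⟩ := h x hx
        refine ⟨q, h1, h2, ?_⟩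
        have h4 : (q : ℤ) ∣ ((x * n + 1 : ℕ) : ℤ) := by exact_mod_cast h3
        push_cast at h4
        exact h4
  refine ⟨C, t, ht, κ, hκ, fun s θ δ hθ hδ => ?_⟩
  obtain ⟨c, X₀, h⟩ := H s θ δ hθ hδ
  refine ⟨c, X₀, fun X hX Y Z hZ hYZ => ?_⟩
  have h1 := h X hX Y Z hZ hYZ
  rw [hGood, hkA] at h1
  exact h1

end Pool.Agent.Results.MP_bca3e5_nt.ChenMultipliers
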