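import Pool.Agent.K1H73.LS.AP
import Pool.Agent.K1H73.LS.Fm

/-!
# Primes `n` with `a_1 n + 1, …, a_s n + 1` almost prime, uniformly in the multipliers: asymptotics and law

For ALL admissible sets `A` of `s` multipliers `a ≤ N ^ C` (`C` arbitrary), in every class modulo a fixed squarefree
`q`: the asymptotic number of the PRIMES `n` in all intervals for which no `a n + 1`, `a ∈ A`, has a prime factor
`≤ z = N ^ (1 / r)`, and the Poisson law for the number of the good integers (`n` and all `a n + 1` without prime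
factors `≤ z`) which follow such a prime.

The law after primes for finite sets of linear forms is the one of `Pool.Agent.R490.LZ` (`primeL`) of the starting
files. New here: the forms `n, a n + 1` in progressions (`K1H73.LS.AP`: the conditions of that theorem, uniformly in the
multipliers, the values of the densities), and the application.
-/

set_option autoImplicit false

namespace Pool.Agent.Results.MP_bca3e5_nt.PrimesLaw

open Finset Filter
open Pool.Agent.K1H73

/-- the product `n ∏ (a n + 1)` -/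
def prodAt (A : Finset ℕ) (n : ℕ) : ℕ := n * ∏ a ∈ A, (a * n + 1)

/-- no prime divides `n ∏ (a n + 1)` for every `n ≥ 1` -/
def Admissible (A : Finset ℕ) : Prop := ∀ p : ℕ, p.Prime → ∃ n : ℕ, 1 ≤ n ∧ ¬ p ∣ prodAt A n

/-- none of the numbers `n` and `a n + 1`, `a ∈ A`, where `n = q m + b`, has a prime factor `≤ z` -/
def Good (A : Finset ℕ) (q b z m : ℕ) : Prop := ∀ l : ℕ, l.Prime → l ≤ z → ¬ l ∣ prodAt A (q * m + b)

/-- the number of the zeros of `n ∏ (a n + 1)` modulo `l` -/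
def rho (A : Finset ℕ) (l : ℕ) : ℕ := ((range l).filter (fun n => l ∣ prodAt A n)).card

/-- the sieve product over the primes `l ≤ z` which do not divide `q` -/
noncomputable def V (A : Finset ℕ) (q z : ℕ) : ℝ :=
  ∏ l ∈ (Finset.range (z + 1)).filter Nat.Prime, (1 - ((if l ∣ q then 0 else rho A l : ℕ) : ℝ) / l)

/-- the same product, every factor divided by `1 - 1 / l` -/
noncomputable def W (A : Finset ℕ) (q z : ℕ) : ℝ :=
  ∏ l ∈ (Finset.range (z + 1)).filter Nat.Prime,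
    (1 - ((if l ∣ q then 0 else rho A l : ℕ) : ℝ) / l) / (1 - 1 / (l : ℝ))

open Classical in
/-- the good `m` in `(u, u + Y]` for which `n = q m + b` is PRIME -/
noncomputable def P (A : Finset ℕ) (q b z u Y : ℕ) : Finset ℕ :=
  (Ioc u (u + Y)).filter (fun m => (q * m + b).Prime ∧ Good A q b z m)

open Classical in
/-- the number of the good `m'` in `(m, m + T]` -/
noncomputable def Next (A : Finset ℕ) (q b z T m : ℕ) : ℕ :=
  ((Ioc m (m + T)).filter (fun m' => Good A q b z m')).card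

/-- the forms -/
def Ts (A : Finset ℕ) : Finset (ℤ × ℤ) := insert ((1 : ℤ), (0 : ℤ)) (A.image (fun a : ℕ => ((a : ℤ), (1 : ℤ))))

lemma Ts_card (A : Finset ℕ) : (Ts A).card = A.card + 1 := by
  unfold Ts
  rw [card_insert_of_notMem, card_image_of_injective]
  · intro x y hxy
    have h : (x : ℤ) = y := congrArg Prod.fst hxy
    exact_mod_cast h
  · intro h
    obtain ⟨a, _, h⟩ := mem_image.1 h
    have : (1 : ℤ) = 0 := congrArg Prod.snd h
    norm_num at this

lemma Ts_iff (A : Finset ℕ) {p : ℕ} (hp : p.Prime) (n : ℕ) :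
    (∃ f ∈ Ts A, (p : ℤ) ∣ f.1 * (n : ℤ) + f.2) ↔ p ∣ prodAt A n := by
  unfold prodAt
  rw [hp.dvd_mul, hp.prime.dvd_finsetProd_iff]
  unfold Ts
  constructor
  · rintro ⟨f, hf, hd⟩
    rcases mem_insert.1 hf with rfl | hf
    · left
      have : (p : ℤ) ∣ (1 : ℤ) * n + 0 := hd
      rw [one_mul, add_zero] at this
      exact_mod_cast this
    · obtain ⟨a, ha, rfl⟩ := mem_image.1 hf
      right
      refine ⟨a, ha, ?_⟩
      have : (p : ℤ) ∣ (a : ℤ) * n + 1 := hd
      exact_mod_cast this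
  · rintro (h | ⟨a, ha, h⟩)
    · refine ⟨_, mem_insert_self _ _, ?_⟩
      show (p : ℤ) ∣ (1 : ℤ) * n + 0
      rw [one_mul, add_zero]
      exact_mod_cast h
    · refine ⟨_, mem_insert_of_mem (mem_image_of_mem _ ha), ?_⟩
      show (p : ℤ) ∣ (a : ℤ) * n + 1
      exact_mod_cast h

lemma good_eq (A : Finset ℕ) (q b z : ℕ) : Good A q b z = Pool.Agent.R490.LZ.Ro (LS.sb q b (Ts A)) z := by
  funext m
  apply propext
  rw [LS.ro_sb]
  unfold Good Pool.Agent.R490.LZ.Ro
  constructor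
  · intro h p hp hpz f hf hd
    exact h p hp hpz ((Ts_iff A hp _).1 ⟨f, hf, hd⟩)
  · intro h p hp hpz hd
    obtain ⟨f, hf, hd⟩ := (Ts_iff A hp _).2 hd
    exact h p hp hpz f hf hd

lemma rho_eq (A : Finset ℕ) {l : ℕ} (hl : l.Prime) : RDW.om (LS.GT (Ts A)) l = rho A l := by
  unfold RDW.om rho
  congr 1
  apply Finset.filter_congr
  intro n _
  rw [LS.dvd_GT hl, Ts_iff A hl]

lemma one_notMem {A : Finset ℕ} (h : Admissible A) : 1 ∉ A := by
  intro h1
  obtain ⟨n, _, hn⟩ := h 2 Nat.prime_two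
  apply hn
  unfold prodAt
  rcases Nat.even_or_odd n with he | ho
  · exact Dvd.dvd.mul_right he.two_dvd _
  · apply Dvd.dvd.mul_left
    refine Dvd.dvd.trans ?_ (Finset.dvd_prod_of_mem _ h1)
    have := ho.add_odd odd_one
    rw [one_mul]
    exact this.two_dvd


lemma co_of {A : Finset ℕ} {q b : ℕ} (hco : Nat.Coprime (prodAt A b) q) :
    ∀ p : ℕ, p.Prime → p ∣ q → ∀ f ∈ Ts A, ¬ (p : ℤ) ∣ f.1 * b + f.2 := by
  intro p hp hpq f hf hd
  have h1 := (Ts_iff A hp b).1 ⟨f, hf, hd⟩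
  have h2 := Nat.dvd_gcd h1 hpq
  rw [hco] at h2
  exact hp.one_lt.ne' (Nat.dvd_one.1 h2)

open Classical in
lemma nu_eq {A : Finset ℕ} {q b : ℕ} (hco : Nat.Coprime (prodAt A b) q) {l : ℕ} (hl : l.Prime) :
    ((Finset.range l).filter (fun m : ℕ => ∃ f ∈ LS.sb q b (Ts A), (l : ℤ) ∣ f.1 * m + f.2)).card =
      if l ∣ q then 0 else rho A l := by
  rw [LS.sb_nu hl (fun h => co_of hco l hl h), rho_eq A hl]

lemma V_eq {A : Finset ℕ} {q b : ℕ} (hco : Nat.Coprime (prodAt A b) q) (z : ℕ) :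
    Pool.Agent.R490.LZ.De (LS.sb q b (Ts A)) z = V A q z := by
  classical
  unfold Pool.Agent.R490.LZ.De V
  apply Finset.prod_congr rfl
  intro l hl
  have h1 := nu_eq hco (mem_filter.1 hl).2
  rw [← h1]

lemma W_eq {A : Finset ℕ} {q b : ℕ} (hco : Nat.Coprime (prodAt A b) q) (z : ℕ) :
    Pool.Agent.R490.LZ.Wr (LS.sb q b (Ts A)) z = W A q z := by
  classical
  unfold Pool.Agent.R490.LZ.Wr W
  apply Finset.prod_congr rfl
  intro l hl
  have h1 := nu_eq hco (mem_filter.1 hl).2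
  rw [← h1]

/-- **Primes `n` with all `a n + 1` almost prime, uniformly in the multipliers.** Let `s, C ≥ 1`, `q` squarefree. For
all `θ, δ > 0`, `x0`, `ε > 0` there is `r0` such that for all `r ≥ r0` and all large `N`, `z = N ^ (1 / r)` (integer
part), for ALL admissible sets `A` of `s` multipliers `1 ≤ a ≤ N ^ C`, all `b ≤ N ^ (θ / 4)` such that `q` is prime to
`b` and all `a b + 1`: `V, W > 0`, and for all intervals `(u, u + Y]` with `Y ≥ δ X`, `u + Y ≤ X`, `X ≥ N ^ θ`, the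
number of the `m` for which `n = q m + b` is PRIME and no `a n + 1` has a prime factor `≤ z` is `Y W / log X`, up to the
factor `1 + ε`, and the number of the good `m'` which follow such an `m` within `T` has the Poisson distribution of mean
`T V ≤ x0`. -/
theorem result (s C : ℕ) (hs : 1 ≤ s) (hC : 1 ≤ C) (q : ℕ) (hq : Squarefree q) (θ δ : ℝ) (hθ : 0 < θ) (hδ : 0 < δ)
    (hδ1 : δ ≤ 1) (x0 ε : ℝ) (hε : 0 < ε) (hε1 : ε ≤ 1) :
    ∃ r0 : ℕ, 2 ≤ r0 ∧ ∀ r : ℕ, r0 ≤ r → ∀ᶠ N : ℕ in atTop, ∀ z : ℕ, z = ⌊(N : ℝ) ^ (1 / (r : ℝ))⌋₊ →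
      ∀ A : Finset ℕ, A.card = s → (∀ a ∈ A, 1 ≤ a ∧ a ≤ N ^ C) → Admissible A →
      ∀ b : ℕ, (b : ℝ) ≤ (N : ℝ) ^ (θ / 4) → b ≤ N ^ C → Nat.Coprime (prodAt A b) q →
        0 < V A q z ∧ 0 < W A q z ∧
        ∀ X : ℕ, (N : ℝ) ^ θ ≤ X → ∀ u Y : ℕ, δ * X ≤ Y → u + Y ≤ X →
        |((P A q b z u Y).card : ℝ) * Real.log X - Y * W A q z| ≤ ε * (Y * W A q z) ∧
        ∀ T : ℕ, T * V A q z ≤ x0 → ∀ J : Finset ℕ,
        |(((P A q b z u Y).filter (fun m => Next A q b z T m ∈ J)).card : ℝ) -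
            (P A q b z u Y).card * ∑ j ∈ J, Real.exp (-(T * V A q z)) * (T * V A q z) ^ j / j.factorial| ≤
          ε * (P A q b z u Y).card := by
  classical
  have hq1 : 1 ≤ q := Nat.pos_of_ne_zero hq.ne_zero
  obtain ⟨r0, hr0, h0⟩ := Pool.Agent.R490.LZ.primeL q (s + 1) (2 * C + 1) hq (by omega) 1 θ δ (by norm_num) hθ hδ hδ1
    x0 ε hε hε1
  refine ⟨r0, hr0, ?_⟩
  intro r hr
  filter_upwards [h0 r hr, eventually_ge_atTop (max 2 q)] with N hN hN2
  intro z hz A hA hAX hadm b hb1 hbC hco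
  have hN22 : 2 ≤ N := (le_max_left _ _).trans hN2
  have hqN : q ≤ N := (le_max_right _ _).trans hN2
  have hNC1 : 1 ≤ N ^ C := Nat.one_le_pow _ _ (by omega)
  have hNC : N ≤ N ^ C := Nat.le_self_pow (by omega) N
  have h1A := one_notMem hadm
  have hT1 : ∀ f ∈ Ts A, 1 ≤ f.1 := by
    intro f hf
    rcases mem_insert.1 hf with rfl | hf
    · norm_num
    · obtain ⟨a, ha, rfl⟩ := mem_image.1 hf
      show (1 : ℤ) ≤ a
      exact_mod_cast (hAX a ha).1
  have hgood : Pool.Agent.R490.LZ.Good (N ^ (2 * C + 1)) (LS.sb q b (Ts A)) := by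
    apply LS.good_sb (N := N ^ C) hq1 (hqN.trans hNC) hbC hT1
    · intro f hf
      rcases mem_insert.1 hf with rfl | hf
      · show (1 : ℤ) ≤ _
        exact_mod_cast hNC1
      · obtain ⟨a, ha, rfl⟩ := mem_image.1 hf
        show (a : ℤ) ≤ _
        exact_mod_cast (hAX a ha).2
    · intro f hf
      rcases mem_insert.1 hf with rfl | hf
      · show |(0 : ℤ)| ≤ _
        rw [abs_zero]
        exact Nat.cast_nonneg _
      · obtain ⟨a, ha, rfl⟩ := mem_image.1 hf
        show |(1 : ℤ)| ≤ _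
        rw [abs_one]
        exact_mod_cast hNC1
    · intro p hp
      obtain ⟨n, _, hn⟩ := hadm p hp
      exact ⟨n, fun f hf hd => hn ((Ts_iff A hp n).1 ⟨f, hf, hd⟩)⟩
    · exact co_of hco
    · have e : N ^ (2 * C + 1) = N ^ C * N ^ C * N := by
        rw [pow_succ, two_mul, pow_add]
      have h1 : N ^ C * 1 ≤ N ^ C * N ^ C := Nat.mul_le_mul_left _ hNC1
      have h2 : N ^ C * N ^ C * 2 ≤ N ^ C * N ^ C * N := Nat.mul_le_mul_left _ hN22
      rw [e]
      omega
  have hnoT : Pool.Agent.R490.LZ.NoT (LS.sb q b (Ts A)) ((N : ℝ) ^ (1 : ℝ)) := by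
    apply LS.noT_sb hq1 hT1
    intro f hf g hg hfg
    rcases mem_insert.1 hf with rfl | hf <;> rcases mem_insert.1 hg with rfl | hg
    · rfl
    · obtain ⟨a, ha, rfl⟩ := mem_image.1 hg
      have h1 : (1 : ℤ) = (a : ℤ) := hfg
      have h2 : 1 = a := by exact_mod_cast h1
      rw [← h2] at ha
      exact absurd ha h1A
    · obtain ⟨a, ha, rfl⟩ := mem_image.1 hf
      have h1 : (a : ℤ) = 1 := hfg
      have h2 : a = 1 := by exact_mod_cast h1
      rw [h2] at ha
      exact absurd ha h1A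
    · obtain ⟨a, ha, rfl⟩ := mem_image.1 hf
      obtain ⟨a', ha', rfl⟩ := mem_image.1 hg
      have h1 : (a : ℤ) = (a' : ℤ) := hfg
      rw [h1]
  have hcard : (LS.sb q b (Ts A)).card = s + 1 := by
    rw [LS.sb_card (by omega), Ts_card, hA]
  have hmem : ((q : ℤ), (b : ℤ)) ∈ LS.sb q b (Ts A) := by
    unfold LS.sb
    rw [mem_image]
    exact ⟨((1 : ℤ), (0 : ℤ)), mem_insert_self _ _, by simp⟩
  have hdv : ∀ p : ℕ, p.Prime → p ∣ q → ∀ l ∈ LS.sb q b (Ts A), (p : ℤ) ∣ l.1 := by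
    intro p _ hpq l hl
    obtain ⟨f, _, rfl⟩ := mem_image.1 hl
    show (p : ℤ) ∣ f.1 * (q : ℤ)
    apply Dvd.dvd.mul_left
    exact_mod_cast hpq
  have h := hN (LS.sb q b (Ts A)) b hcard hmem hb1 hdv hgood hnoT z hz
  rw [W_eq hco, V_eq hco] at h
  have hPr : ∀ u Y : ℕ, Pool.Agent.R490.LZ.Pr q b (LS.sb q b (Ts A)) z u Y = P A q b z u Y := by
    intro u Y
    unfold Pool.Agent.R490.LZ.Pr P
    rw [good_eq]
  have hNx : ∀ T m : ℕ, Pool.Agent.R490.LZ.Nx (LS.sb q b (Ts A)) z T m = Next A q b z T m := by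
    intro T m
    unfold Pool.Agent.R490.LZ.Nx Next
    rw [good_eq]
  refine ⟨?_, h.1, ?_⟩
  · rw [← V_eq hco, Pool.Agent.R490.LZ.De]
    apply Finset.prod_pos
    intro p hp
    have hpp := (mem_filter.1 hp).2
    have hp0 : (0 : ℝ) < p := by exact_mod_cast hpp.pos
    rw [sub_pos, div_lt_one hp0]
    obtain ⟨m, hm⟩ := hgood.adm p hpp
    have h1 : (Finset.range p).filter (fun m : ℕ => ∃ l ∈ LS.sb q b (Ts A), (p : ℤ) ∣ l.1 * m + l.2) ⊂
        Finset.range p := by
      rw [ssubset_iff_subset_ne]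
      refine ⟨filter_subset _ _, fun h2 => ?_⟩
      have h3 : m % p ∈ Finset.range p := mem_range.2 (Nat.mod_lt _ hpp.pos)
      rw [← h2, mem_filter] at h3
      obtain ⟨_, l, hl, hd⟩ := h3
      apply hm l hl
      rw [LS.per p l m (m % p) (LS.sub_mod p m)]
      exact hd
    have h2 := card_lt_card h1
    rw [card_range] at h2
    exact_mod_cast h2
  · intro X hX u Y hY huY
    obtain ⟨k1, k2⟩ := h.2 X hX u Y hY huY
    rw [hPr] at k1 k2
    refine ⟨k1, ?_⟩
    intro T hT J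
    have k3 := k2 T hT J
    simp only [hNx] at k3
    exact k3

end Pool.Agent.Results.MP_bca3e5_nt.PrimesLaw
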