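import Pool.Agent.K1H73.LS.AP

/-!
# Residue patterns of consecutive integers `n` with `n, a_1 n + 1, …, a_s n + 1` almost prime, uniformly in the set

For every prime `l` and every `k`, uniformly in ALL admissible sets `A` of `s` multipliers `a ≤ X ^ C`, in all
progressions `n = q m + b` with `q, b ≤ X ^ C` and in all intervals of length at least `X ^ θ`: the residue classes
modulo `l` of `k + 1` consecutive `m` for which none of the `s + 1` numbers `n` and `a n + 1`, `a ∈ A`, has a prime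
factor `≤ z = X ^ (1 / r)`, form every admissible pattern asymptotically equally often.

The theorem on residue patterns for one sieve problem is the one of `Pool.Agent.V11146.MK` (`gen_pat`) of the starting
files, used there for fixed systems of polynomials. New here: the version for systems which depend on `X`, uniformly
(`pat_unif`, `pat_polys`, `patL`), and the application.
-/

set_option autoImplicit false

namespace Pool.Agent.Results.MP_bca3e5_nt.ResiduePatterns

open Finset Filter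
open Pool.Agent.K1H73

/-- the product `n ∏ (a n + 1)` -/
def prodAt (A : Finset ℕ) (n : ℕ) : ℕ := n * ∏ a ∈ A, (a * n + 1)

/-- no prime divides `n ∏ (a n + 1)` for every `n ≥ 1` -/
def Admissible (A : Finset ℕ) : Prop := ∀ p : ℕ, p.Prime → ∃ n : ℕ, 1 ≤ n ∧ ¬ p ∣ prodAt A n

/-- none of the numbers `n` and `a n + 1`, `a ∈ A`, where `n = q m + b`, has a prime factor `≤ z` -/
def Good (A : Finset ℕ) (q b z m : ℕ) : Prop := ∀ l : ℕ, l.Prime → l ≤ z → ¬ l ∣ prodAt A (q * m + b)

/-- `p 0 < p 1 < … < p k` are consecutive elements of `S` -/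
def Consecutive (S : ℕ → Prop) (k : ℕ) (p : ℕ → ℕ) : Prop :=
  (∀ i ≤ k, S (p i)) ∧ ∀ i < k, p i < p (i + 1) ∧ ∀ m, p i < m → m < p (i + 1) → ¬ S m

open Classical in
/-- the number of the good `m` in `(u, u + Y]` -/
noncomputable def total (A : Finset ℕ) (q b z u Y : ℕ) : ℕ := ((Ioc u (u + Y)).filter (Good A q b z)).card

open Classical in
/-- the number of the good `g` in `(u, u + Y]` such that `g` and the `k` next good integers are congruent to
`c 0, …, c k` modulo `l` -/
noncomputable def count (A : Finset ℕ) (q b z k l : ℕ) (c : ℕ → ℕ) (u Y : ℕ) : ℕ :=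
  ((Ioc u (u + Y)).filter (fun g => ∃ p : ℕ → ℕ, p 0 = g ∧ Consecutive (Good A q b z) k p ∧
    ∀ i ≤ k, p i % l = c i)).card

/-- the residue classes `c` modulo `l` for which `l` divides none of the numbers `n`, `a n + 1`, `n = q c + b` -/
def Cl (A : Finset ℕ) (q b l : ℕ) : Finset ℕ := (range l).filter (fun c => ¬ l ∣ prodAt A (q * c + b))

/-- the number of the zeros of `n ∏ (a n + 1)` modulo `l` -/
def rho (A : Finset ℕ) (l : ℕ) : ℕ := ((range l).filter (fun n => l ∣ prodAt A n)).card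

/-- the forms -/
def T (A : Finset ℕ) : Finset (ℤ × ℤ) := insert ((1 : ℤ), (0 : ℤ)) (A.image (fun a : ℕ => ((a : ℤ), (1 : ℤ))))

lemma T_card (A : Finset ℕ) : (T A).card = A.card + 1 := by
  unfold T
  rw [card_insert_of_notMem, card_image_of_injective]
  · intro x y hxy
    have h : (x : ℤ) = y := congrArg Prod.fst hxy
    exact_mod_cast h
  · intro h
    obtain ⟨a, _, h⟩ := mem_image.1 h
    have : (1 : ℤ) = 0 := congrArg Prod.snd h
    norm_num at this

lemma T_iff (A : Finset ℕ) {p : ℕ} (hp : p.Prime) (n : ℕ) :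
    (∃ f ∈ T A, (p : ℤ) ∣ f.1 * (n : ℤ) + f.2) ↔ p ∣ prodAt A n := by
  unfold prodAt
  rw [hp.dvd_mul, hp.prime.dvd_finsetProd_iff]
  unfold T
  constructor
  · rintro ⟨f, hf, hd⟩
    rcases mem_insert.1 hf with rfl | hf
    · left
      have : (p : ℤ) ∣ (1 : ℤ) * n + 0 := hd
      rw [one_mul, add_zero] at this
      exact_mod_cast this
    · obtain ⟨a, ha, rfl⟩ := mem_image.1 hf
      right
      refine ⟨a, ha, ?_⟩
      have : (p : ℤ) ∣ (a : ℤ) * n + 1 := hd
      exact_mod_cast this
  · rintro (h | ⟨a, ha, h⟩)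
    · refine ⟨_, mem_insert_self _ _, ?_⟩
      show (p : ℤ) ∣ (1 : ℤ) * n + 0
      rw [one_mul, add_zero]
      exact_mod_cast h
    · refine ⟨_, mem_insert_of_mem (mem_image_of_mem _ ha), ?_⟩
      show (p : ℤ) ∣ (a : ℤ) * n + 1
      exact_mod_cast h

lemma good_eq (A : Finset ℕ) (q b z : ℕ) : Good A q b z = Pool.Agent.R490.LZ.Ro (LS.sb q b (T A)) z := by
  funext m
  apply propext
  rw [LS.ro_sb]
  unfold Good Pool.Agent.R490.LZ.Ro
  constructor
  · intro h p hp hpz f hf hd
    exact h p hp hpz ((T_iff A hp _).1 ⟨f, hf, hd⟩)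
  · intro h p hp hpz hd
    obtain ⟨f, hf, hd⟩ := (T_iff A hp _).2 hd
    exact h p hp hpz f hf hd

lemma Cl_eq (A : Finset ℕ) (q b : ℕ) {l : ℕ} (hl : l.Prime) : LS.Cw (LS.sb q b (T A)) l = Cl A q b l := by
  classical
  rw [LS.Cw_prime _ hl]
  unfold Cl
  apply Finset.filter_congr
  intro c _
  rw [← T_iff A hl, ← LS.sb_dvd]
  push Not
  rfl

lemma rho_eq (A : Finset ℕ) {l : ℕ} (hl : l.Prime) : RDW.om (LS.GT (T A)) l = rho A l := by
  unfold RDW.om rho
  congr 1
  apply Finset.filter_congr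
  intro n _
  rw [LS.dvd_GT hl, T_iff A hl]

/-- few prime factors -/
theorem few {X z r C : ℕ} (hr : 1 ≤ r) (hC : C ≠ 0) (hz : z = ⌊(X : ℝ) ^ (1 / (r : ℝ))⌋₊) (hz1 : 1 ≤ z) {x : ℕ}
    (hx0 : x ≠ 0) (hx : x ≤ X ^ C + 1) (h : ∀ l : ℕ, l.Prime → l ≤ z → ¬ l ∣ x) :
    x.primeFactorsList.length ≤ r * C := by
  by_contra hcon
  rw [not_le] at hcon
  have h1 : ∀ l ∈ x.primeFactorsList, z + 1 ≤ l := by
    intro l hl
    by_contra h2
    exact h l (Nat.prime_of_mem_primeFactorsList hl) (by omega) (Nat.dvd_of_mem_primeFactorsList hl)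
  have h2 : (z + 1) ^ x.primeFactorsList.length ≤ x := by
    have h3 : (z + 1) ^ x.primeFactorsList.length ≤ x.primeFactorsList.prod :=
      List.pow_card_le_prod _ _ h1
    rwa [Nat.prod_primeFactorsList hx0] at h3
  have h4 : (z + 1) ^ (r * C + 1) ≤ (z + 1) ^ x.primeFactorsList.length := Nat.pow_le_pow_right (by omega) (by omega)
  have h5 : (X : ℝ) < ((z + 1 : ℕ) : ℝ) ^ r := by
    have h6 : (X : ℝ) ^ (1 / (r : ℝ)) < ((z + 1 : ℕ) : ℝ) := by
      rw [hz]
      push_cast
      exact Nat.lt_floor_add_one _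
    have h7 : ((X : ℝ) ^ (1 / (r : ℝ))) ^ r < ((z + 1 : ℕ) : ℝ) ^ r :=
      pow_lt_pow_left₀ h6 (by positivity) (by omega)
    rwa [← Real.rpow_natCast, ← Real.rpow_mul (Nat.cast_nonneg X), one_div,
      inv_mul_cancel₀ (by positivity), Real.rpow_one] at h7
  have h6 : X < (z + 1) ^ r := by exact_mod_cast h5
  have h7 : X ^ C < (z + 1) ^ (r * C) := by
    rw [pow_mul]
    exact Nat.pow_lt_pow_left h6 hC
  have h8 : (z + 1) ^ (r * C + 1) = (z + 1) ^ (r * C) * (z + 1) := pow_succ _ _
  have h9 : (z + 1) ^ (r * C) * 2 ≤ (z + 1) ^ (r * C) * (z + 1) := Nat.mul_le_mul_left _ (by omega)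
  omega

lemma one_notMem {A : Finset ℕ} (h : Admissible A) : 1 ∉ A := by
  intro h1
  obtain ⟨n, _, hn⟩ := h 2 Nat.prime_two
  apply hn
  unfold prodAt
  rcases Nat.even_or_odd n with he | ho
  · exact Dvd.dvd.mul_right he.two_dvd _
  · apply Dvd.dvd.mul_left
    refine Dvd.dvd.trans ?_ (Finset.dvd_prod_of_mem _ h1)
    have := ho.add_odd odd_one
    rw [one_mul]
    exact this.two_dvd

/-- **Residue patterns, uniformly in the set of multipliers.** Let `s, C ≥ 1`, let `l` be a prime number, `k` any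
integer and `θ, ε > 0`. There is `r0` such that for all `r ≥ r0` and all large `X`, `z = X ^ (1 / r)` (integer part),
for ALL admissible sets `A` of `s` multipliers `1 ≤ a ≤ X ^ C`, all `1 ≤ q ≤ X ^ C` and all `b ≤ X ^ C` such that `q` is
prime to `b` and all `a b + 1`: (1) if `1 ≤ n = q m + b ≤ X ^ C` and `m` is good then `n` has at most `r C` and each
`a n + 1` at most `2 r C` prime factors, and `m` is good if `n > z` and all the `a n + 1` are primes; (2) there are `l`
admissible classes modulo `l` if `l` divides `q`, and `l - rho` otherwise; (3) for all intervals `(u, u + Y]` with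
`Y ≥ X ^ θ`, each of the patterns of residue classes modulo `l` of `k + 1` consecutive good integers `m` which consist
of admissible classes occurs with the same frequency, up to `ε`. -/
theorem result (s C : ℕ) (hs : 1 ≤ s) (hC : 1 ≤ C) (l : ℕ) (hl : l.Prime) (k : ℕ) (θ ε : ℝ) (hθ : 0 < θ)
    (hε : 0 < ε) :
    ∃ r0 : ℕ, 1 ≤ r0 ∧ ∀ r : ℕ, r0 ≤ r → ∀ᶠ X : ℕ in atTop, ∀ z : ℕ, z = ⌊(X : ℝ) ^ (1 / (r : ℝ))⌋₊ →
      ∀ A : Finset ℕ, A.card = s → (∀ a ∈ A, 1 ≤ a ∧ a ≤ X ^ C) → Admissible A →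
      ∀ q b : ℕ, 1 ≤ q → q ≤ X ^ C → b ≤ X ^ C → Nat.Coprime (prodAt A b) q →
        (∀ m : ℕ, 1 ≤ q * m + b → q * m + b ≤ X ^ C →
          (Good A q b z m → (q * m + b).primeFactorsList.length ≤ r * C ∧
            ∀ a ∈ A, (a * (q * m + b) + 1).primeFactorsList.length ≤ r * (2 * C)) ∧
          ((q * m + b).Prime → z < q * m + b → (∀ a ∈ A, (a * (q * m + b) + 1).Prime) → Good A q b z m)) ∧
        (Cl A q b l).card + (if l ∣ q then 0 else rho A l) = l ∧
        ∀ u Y : ℕ, (X : ℝ) ^ θ ≤ Y →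
          0 < total A q b z u Y ∧ ∀ c : ℕ → ℕ, (∀ i ≤ k, c i ∈ Cl A q b l) →
            |(count A q b z k l c u Y : ℝ) - total A q b z u Y / ((Cl A q b l).card : ℝ) ^ (k + 1)| ≤
              ε * total A q b z u Y := by
  classical
  obtain ⟨r0, h0⟩ := LS.patL (s + 1) (2 * C + 1) l k (by omega) hl 1 θ (by norm_num) hθ ε hε
  refine ⟨max r0 1, le_max_right _ _, ?_⟩
  intro r hr
  have hr1 : 1 ≤ r := (le_max_right _ _).trans hr
  have hb2 : ∀ᶠ n : ℕ in atTop, (1 : ℝ) ≤ (n : ℝ) ^ (1 / (r : ℝ)) :=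
    ((tendsto_rpow_atTop (by positivity)).comp tendsto_natCast_atTop_atTop).eventually_ge_atTop _
  filter_upwards [h0 r ((le_max_left _ _).trans hr), hb2, eventually_ge_atTop 2] with X hX hX1 hX2
  intro z hz A hA hAX hadm q b hq1 hqX hbX hco
  have hz1 : 1 ≤ z := by
    rw [hz]
    exact Nat.le_floor (by exact_mod_cast hX1)
  have h1A := one_notMem hadm
  have hTco : ∀ p : ℕ, p.Prime → p ∣ q → ∀ f ∈ T A, ¬ (p : ℤ) ∣ f.1 * b + f.2 := by
    intro p hp hpq f hf hd
    have h1 := (T_iff A hp b).1 ⟨f, hf, hd⟩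
    have h2 := Nat.dvd_gcd h1 hpq
    rw [hco] at h2
    exact hp.one_lt.ne' (Nat.dvd_one.1 h2)
  refine ⟨?_, ?_, ?_⟩
  · intro m hm1 hm2
    constructor
    · intro hg
      constructor
      · apply few hr1 (by omega) hz hz1 (by omega) (by omega)
        intro p hp hpz hd
        exact hg p hp hpz (Dvd.dvd.mul_right hd _)
      · intro a ha
        apply few (C := 2 * C) hr1 (by omega) hz hz1 (by omega)
        · have h1 : a * (q * m + b) ≤ X ^ C * X ^ C := Nat.mul_le_mul (hAX a ha).2 hm2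
          rw [two_mul, pow_add]
          omega
        · intro p hp hpz hd
          exact hg p hp hpz (Dvd.dvd.mul_left (hd.trans
            (Finset.dvd_prod_of_mem (fun a => a * (q * m + b) + 1) ha)) _)
    · intro h1 h2 h3 p hp hpz hd
      unfold prodAt at hd
      rw [hp.dvd_mul, hp.prime.dvd_finsetProd_iff] at hd
      rcases hd with hd | ⟨a, ha, hd⟩
      · have := (Nat.prime_dvd_prime_iff_eq hp h1).1 hd
        omega
      · have h4 := (Nat.prime_dvd_prime_iff_eq hp (h3 a ha)).1 hd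
        have h5 : q * m + b ≤ a * (q * m + b) := Nat.le_mul_of_pos_left _ (hAX a ha).1
        omega
  · have h := LS.Cw_sb (T := T A) (q := q) (b := b) hl (fun h => hTco l hl h)
    rw [Cl_eq A q b hl, rho_eq A hl] at h
    exact h
  · intro u Y hY
    have hXC1 : 1 ≤ X ^ C := Nat.one_le_pow _ _ (by omega)
    have hgood : Pool.Agent.R490.LZ.Good (X ^ (2 * C + 1)) (LS.sb q b (T A)) := by
      apply LS.good_sb (N := X ^ C) hq1 hqX hbX
      · intro f hf
        rcases mem_insert.1 hf with rfl | hf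
        · norm_num
        · obtain ⟨a, ha, rfl⟩ := mem_image.1 hf
          show (1 : ℤ) ≤ a
          exact_mod_cast (hAX a ha).1
      · intro f hf
        rcases mem_insert.1 hf with rfl | hf
        · show (1 : ℤ) ≤ _
          exact_mod_cast hXC1
        · obtain ⟨a, ha, rfl⟩ := mem_image.1 hf
          show (a : ℤ) ≤ _
          exact_mod_cast (hAX a ha).2
      · intro f hf
        rcases mem_insert.1 hf with rfl | hf
        · show |(0 : ℤ)| ≤ _
          rw [abs_zero]
          exact Nat.cast_nonneg _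
        · obtain ⟨a, ha, rfl⟩ := mem_image.1 hf
          show |(1 : ℤ)| ≤ _
          rw [abs_one]
          exact_mod_cast hXC1
      · intro p hp
        obtain ⟨n, _, hn⟩ := hadm p hp
        exact ⟨n, fun f hf hd => hn ((T_iff A hp n).1 ⟨f, hf, hd⟩)⟩
      · exact hTco
      · have e : X ^ (2 * C + 1) = X ^ C * X ^ C * X := by
          rw [pow_succ, two_mul, pow_add]
        have h1 : X ^ C * 1 ≤ X ^ C * X ^ C := Nat.mul_le_mul_left _ hXC1
        have h2 : X ^ C * X ^ C * 2 ≤ X ^ C * X ^ C * X := Nat.mul_le_mul_left _ hX2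
        rw [e]
        omega
    have hnoT : Pool.Agent.R490.LZ.NoT (LS.sb q b (T A)) ((X : ℝ) ^ (1 : ℝ)) := by
      apply LS.noT_sb hq1
      · intro f hf
        rcases mem_insert.1 hf with rfl | hf
        · norm_num
        · obtain ⟨a, ha, rfl⟩ := mem_image.1 hf
          show (1 : ℤ) ≤ a
          exact_mod_cast (hAX a ha).1
      · intro f hf g hg hfg
        rcases mem_insert.1 hf with rfl | hf <;> rcases mem_insert.1 hg with rfl | hg
        · rfl
        · obtain ⟨a, ha, rfl⟩ := mem_image.1 hg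
          have h1 : (1 : ℤ) = (a : ℤ) := hfg
          have h2 : 1 = a := by exact_mod_cast h1
          rw [← h2] at ha
          exact absurd ha h1A
        · obtain ⟨a, ha, rfl⟩ := mem_image.1 hf
          have h1 : (a : ℤ) = 1 := hfg
          have h2 : a = 1 := by exact_mod_cast h1
          rw [h2] at ha
          exact absurd ha h1A
        · obtain ⟨a, ha, rfl⟩ := mem_image.1 hf
          obtain ⟨a', ha', rfl⟩ := mem_image.1 hg
          have h1 : (a : ℤ) = (a' : ℤ) := hfg
          rw [h1]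
    have hcard : (LS.sb q b (T A)).card = s + 1 := by
      rw [LS.sb_card (by omega), T_card, hA]
    have h := hX (LS.sb q b (T A)) hcard hgood hnoT z hz u Y hY
    rw [Cl_eq A q b hl, ← good_eq] at h
    exact h

end Pool.Agent.Results.MP_bca3e5_nt.ResiduePatterns
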