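import Pool.Agent.K1H73.RDW.AP
import Pool.Agent.K1H73.RDW.Fin

/-!
# Almost primes `n, a_1 n + 1, …, a_s n + 1` with restricted digits, in progressions and short intervals, uniformly

For all admissible sets `M` of `s` multipliers `≤ L ^ E` and all progressions `n = a + q m` with `q, a ≤ L ^ E`: among
the `m` of an interval `(B, B + L]`, `B ≤ L ^ E`, for which the last `K = log_b (L / 3)` (integer part) digits in base
`b` belong to arbitrary sets `A i`, with the product of the `|A i|` at least `exp (- c K) b ^ K`, at least the expected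
number is such that `n` and all `a' n + 1`, `a' ∈ M`, are products of at most `r` primes `l`, all with `l ^ r > b ^ K`,
and at most the expected number such that `n` and all `a' n + 1` are primes, up to constant factors; uniformly in `M`,
`q`, `a`, `B` and the `A i`.

The sieve for integers with restricted digits is the one of `Pool.Agent.Y816.PD` of the starting files (`uni_fun`,
unused there for this problem); new here: the form for windows and all polynomial functions, the progressions, and the
application, uniformly in the set of multipliers.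
-/

set_option autoImplicit false

namespace Pool.Agent.Results.MP_bca3e5_nt.RestrictedDigits

open Finset Filter Polynomial
open Pool.Agent.K1H73.RDW

/-- the product `n ∏ (a n + 1)` -/
def prodAt (M : Finset ℕ) (n : ℕ) : ℕ := n * ∏ a ∈ M, (a * n + 1)

/-- no prime divides `n ∏ (a n + 1)` for every `n ≥ 1` -/
def Admissible (M : Finset ℕ) : Prop := ∀ p : ℕ, p.Prime → ∃ n : ℕ, 1 ≤ n ∧ ¬ p ∣ prodAt M n

/-- `v > 1` is a product of at most `r` primes, all of them with `z < l ^ r` -/
def Almost (r z v : ℕ) : Prop := 1 < v ∧ v.primeFactorsList.length ≤ r ∧ ∀ l : ℕ, l.Prime → l ∣ v → z < l ^ r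

/-- the number of the elements of `S` whose `i`-th digit in base `b` belongs to `A i` for all `i < K` -/
noncomputable def count (b K : ℕ) (A : ℕ → Finset ℕ) (S : Set ℕ) : ℕ :=
  {m : ℕ | m ∈ S ∧ ∀ i < K, m / b ^ i % b ∈ A i}.ncard

/-- the `m` in `(B, B + L]` for which `n = a + q m` and all `a' n + 1`, `a' ∈ M`, are almost primes -/
def P (M : Finset ℕ) (q a B L r z : ℕ) : Set ℕ :=
  {m | (B < m ∧ m ≤ B + L) ∧ Almost r z (a + q * m) ∧ ∀ a' ∈ M, Almost r z (a' * (a + q * m) + 1)}

/-- the `m` in `(B, B + L]` for which `n = a + q m` and all `a' n + 1`, `a' ∈ M`, are primes -/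
def T (M : Finset ℕ) (q a B L : ℕ) : Set ℕ :=
  {m | (B < m ∧ m ≤ B + L) ∧ (a + q * m).Prime ∧ ∀ a' ∈ M, (a' * (a + q * m) + 1).Prime}

/-- the number of the zeros of `n ∏ (a n + 1)` modulo `l` -/
def rho (M : Finset ℕ) (l : ℕ) : ℕ := ((range l).filter (fun n => l ∣ prodAt M n)).card

/-- the sieve product over the primes up to `x` which do not divide `q` -/
noncomputable def V (M : Finset ℕ) (q x : ℕ) : ℝ :=
  ∏ l ∈ (Icc 1 x).filter Nat.Prime, (1 - (if l ∣ q then 0 else rho M l : ℕ) / (l : ℝ))

/-- the product as an integer valued function -/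
def F (M : Finset ℕ) (n : ℕ) : ℤ := (prodAt M n : ℤ)

lemma PF_F (M : Finset ℕ) : PF (M.card + 1) (F M) := by
  refine ⟨X * ∏ a ∈ M, (C (a : ℤ) * X + C 1), ?_, fun n => ?_⟩
  · refine natDegree_mul_le.trans ?_
    have h1 : (∏ a ∈ M, (C (a : ℤ) * X + C 1 : ℤ[X])).natDegree ≤ M.card := by
      refine (natDegree_prod_le _ _).trans ?_
      refine (Finset.sum_le_card_nsmul M _ 1 (fun f _ => natDegree_linear_le)).trans ?_
      rw [smul_eq_mul, mul_one]
    have h2 : (X : ℤ[X]).natDegree ≤ 1 := natDegree_X_le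
    omega
  · unfold F prodAt
    rw [eval_mul, eval_X, eval_prod]
    push_cast
    simp only [eval_add, eval_mul, eval_X, eval_C]

lemma NF_F {M : Finset ℕ} (h : Admissible M) : NF (F M) := by
  intro p hp
  obtain ⟨n, _, hn⟩ := h p hp
  refine ⟨n, fun hd => hn ?_⟩
  unfold F at hd
  exact_mod_cast hd

lemma om_F (M : Finset ℕ) (l : ℕ) : om (F M) l = rho M l := by
  unfold om rho F
  congr 1
  apply Finset.filter_congr
  intro n _
  exact Int.natCast_dvd_natCast

lemma cop_iff' (M : Finset ℕ) (n b : ℕ) : (F M n).natAbs.Coprime b ↔ Nat.Coprime (prodAt M n) b := by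
  unfold F
  rw [Int.natAbs_natCast]

lemma WG_eq {M : Finset ℕ} {q a : ℕ} (hco : Nat.Coprime (prodAt M a) q) (x : ℕ) :
    Pool.Agent.Y816.PD.WG (fun m => F M (a + q * m)) x = V M q x := by
  rw [WG_om]
  unfold V
  apply Finset.prod_congr rfl
  intro l hl
  have hlp := (mem_filter.1 hl).2
  have h1 : om (fun m => F M (a + q * m)) l = if l ∣ q then 0 else rho M l := by
    split_ifs with h
    · apply om_affine' (PF_F M) h
      intro hd
      unfold F at hd
      have hd' : l ∣ prodAt M a := by exact_mod_cast hd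
      have h2 := Nat.dvd_gcd hd' h
      rw [hco] at h2
      exact hlp.one_lt.ne' (Nat.dvd_one.1 h2)
    · rw [om_affine (PF_F M) a hlp h, om_F]
  rw [h1]

lemma dvd_first (M : Finset ℕ) (n : ℕ) : n ∣ prodAt M n := Dvd.intro _ rfl

lemma dvd_other {M : Finset ℕ} {a : ℕ} (ha : a ∈ M) (n : ℕ) : a * n + 1 ∣ prodAt M n :=
  Dvd.dvd.mul_left (Finset.dvd_prod_of_mem (fun a => a * n + 1) ha) _

lemma prodAt_le {M : Finset ℕ} {N n : ℕ} (hN : 1 ≤ N) (hn : n ≤ N) (h : ∀ a ∈ M, a * n + 1 ≤ N) :
    prodAt M n ≤ N ^ (M.card + 1) := by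
  unfold prodAt
  rw [pow_succ, mul_comm]
  apply Nat.mul_le_mul _ hn
  rw [← Finset.prod_const]
  exact Finset.prod_le_prod' h

/-- **Almost primes `n, a' n + 1` with restricted digits, uniformly in the multipliers.** For all admissible sets `M`
of `s` multipliers `≤ L ^ E`, all `q, a ≤ L ^ E` with `q` prime to `prodAt M a`, all `B` and all sets `A i` of digits:
the expected order of magnitude from below for almost primes and from above for primes. -/
theorem result (s E : ℕ) :
    ∃ c : ℝ, 0 < c ∧ ∃ r₀ : ℕ, 2 ≤ r₀ ∧ ∀ r : ℕ, r₀ ≤ r → ∀ b : ℕ, 2 ≤ b → ∃ κ C : ℝ, 0 < κ ∧ 0 < C ∧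
      ∀ᶠ L : ℕ in atTop, ∀ M : Finset ℕ, M.card = s → (∀ a' ∈ M, 1 ≤ a' ∧ a' ≤ L ^ E) → Admissible M →
        ∀ q a : ℕ, 1 ≤ q → q ≤ L ^ E → a ≤ L ^ E → Nat.Coprime (prodAt M a) q →
        c / Real.log L ^ (s + 1) ≤ V M q L ∧
        (∃ d < b, Nat.Coprime (prodAt M (a + q * d)) b) ∧
        ∀ B : ℕ, 1 ≤ B → B ≤ L ^ E → ∀ K : ℕ, K = Nat.log b (L / 3) →
          ∀ A : ℕ → Finset ℕ, (∀ i < K, A i ⊆ range b) →
            (b : ℝ) ^ K ≤ Real.exp (c * K) * ∏ i ∈ range K, ((A i).card : ℝ) →
          ((∃ d ∈ A 0, Nat.Coprime (prodAt M (a + q * d)) b) →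
            κ * (∏ i ∈ range K, ((A i).card : ℝ)) * V M q L ≤ count b K A (P M q a B L r (b ^ K))) ∧
          (count b K A (T M q a B L) : ℝ) ≤ C * (∏ i ∈ range K, ((A i).card : ℝ)) * V M q L := by
  classical
  obtain ⟨c, hc, r₀, hr₀, h⟩ := main (s + 1) ((3 * E + 6) * (s + 1)) (by omega)
  obtain ⟨c1, hc1, hlow⟩ := WG_low (s + 1)
  obtain ⟨c2, hc2, hcomp⟩ := WG_comp (s + 1)
  refine ⟨min c c1, lt_min hc hc1, r₀, hr₀, fun r hr b hb => ?_⟩
  have h2r : 2 ≤ r := hr₀.trans hr
  obtain ⟨κ, C, hκ, hC, h1⟩ := h r hr b hb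
  refine ⟨κ, C * (4 ^ (s + 1) / c2), hκ, by positivity, ?_⟩
  filter_upwards [h1, eventually_ge_atTop 3] with L hL hL3
  intro M hM hML hadm q a hq1 hqL haL hco
  have hPF := (PF_F M).affine a q
  rw [hM] at hPF
  have hNF : NF (fun m => F M (a + q * m)) := by
    apply (NF_F hadm).affine (PF_F M)
    unfold F
    rw [Nat.isCoprime_iff_coprime]
    exact hco
  have hLE1 : 1 ≤ L ^ E := Nat.one_le_pow _ _ (by omega)
  refine ⟨?_, ?_, ?_⟩
  · rw [← WG_eq hco]
    refine le_trans ?_ (hlow L (by omega) _ hPF hNF)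
    have hlog : 0 < Real.log L := Real.log_pos (by exact_mod_cast (by omega : 1 < L))
    have : 0 < Real.log L ^ (s + 1) := by positivity
    exact div_le_div_of_nonneg_right (min_le_right _ _) this.le
  · obtain ⟨d, hd, hd2⟩ := exists_digit hPF hNF (show 0 < b by omega)
    exact ⟨d, hd, (cop_iff' M _ b).1 hd2⟩
  · intro B hB1 hB K hK A hA hprod
    obtain ⟨e1, e2, e3, e4⟩ := hL K hK
    have hNA : Pool.Agent.Y816.PD.NA K A = ∏ i ∈ range K, ((A i).card : ℝ) := rfl
    have hNA0 := Pool.Agent.Y816.PD.NA_nonneg K A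
    have hprod' : (b : ℝ) ^ K ≤ Real.exp (c * K) * Pool.Agent.Y816.PD.NA K A := by
      refine hprod.trans ?_
      apply mul_le_mul_of_nonneg_right _ hNA0
      apply Real.exp_le_exp.2
      exact mul_le_mul_of_nonneg_right (min_le_left _ _) (Nat.cast_nonneg _)
    have hbK : b ≤ b ^ K := Nat.le_self_pow (by omega) b
    -- size
    have hsize : ∀ m : ℕ, m < B + 2 * L → (F M (a + q * m)).natAbs ≤ L ^ ((3 * E + 6) * (s + 1)) := by
      intro m hm
      unfold F
      rw [Int.natAbs_natCast, pow_mul, ← hM]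
      have hLb : L ≤ L ^ (E + 1) := Nat.le_self_pow (by omega) L
      have hLc : L ^ E ≤ L ^ (E + 1) := Nat.pow_le_pow_right (by omega) (by omega)
      have hn1 : a + q * m ≤ L ^ (2 * E + 4) := by
        have h8 : m ≤ 3 * L ^ (E + 1) := by omega
        have h9 : q * m ≤ L ^ E * (3 * L ^ (E + 1)) := Nat.mul_le_mul hqL h8
        have h11 : 1 ≤ L ^ (E + 1) := Nat.one_le_pow _ _ (by omega)
        have h12 : L ^ E ≤ L ^ E * L ^ (E + 1) := Nat.le_mul_of_pos_right _ (by omega)
        calc a + q * m ≤ 9 * (L ^ E * L ^ (E + 1)) := by nlinarith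
          _ ≤ L ^ 2 * (L ^ E * L ^ (E + 1)) := by
              apply Nat.mul_le_mul_right
              calc 9 = 3 ^ 2 := by norm_num
                _ ≤ L ^ 2 := Nat.pow_le_pow_left hL3 2
          _ = L ^ (2 * E + 3) := by rw [← pow_add, ← pow_add]; congr 1; ring
          _ ≤ L ^ (2 * E + 4) := Nat.pow_le_pow_right (by omega) (by omega)
      apply prodAt_le
      · exact Nat.one_le_pow _ _ (by omega)
      · exact hn1.trans (Nat.pow_le_pow_right (by omega) (by omega))
      · intro a' ha'
        have h2 := (hML a' ha').2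
        have h3 : a' * (a + q * m) ≤ L ^ E * L ^ (2 * E + 4) := Nat.mul_le_mul h2 hn1
        have h4 : 1 ≤ L ^ E * L ^ (2 * E + 4) := Nat.mul_pos (by omega) (Nat.one_le_pow _ _ (by omega))
        calc a' * (a + q * m) + 1 ≤ 2 * (L ^ E * L ^ (2 * E + 4)) := by omega
          _ ≤ L ^ 2 * (L ^ E * L ^ (2 * E + 4)) := by
              apply Nat.mul_le_mul_right
              calc 2 ≤ 3 ^ 2 := by norm_num
                _ ≤ L ^ 2 := Nat.pow_le_pow_left hL3 2
          _ = L ^ (3 * E + 6) := by rw [← pow_add, ← pow_add]; congr 1; ring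
    obtain ⟨h5, h6⟩ := e4 (fun m => F M (a + q * m)) hPF hNF B hsize A hA hprod'
    have hW0 := Pool.Agent.Y816.PD.WG_nonneg (fun m => F M (a + q * m)) (b ^ K)
    constructor
    · rintro ⟨d, hd, hd2⟩
      have h7 := h5 (P M q a B L r (b ^ K)) ((finite_toSet (Ioc B (B + L))).subset fun m hm => by
          rw [mem_coe, mem_Ioc]; exact hm.1) (by
        intro m hm1 hm2 hm3
        obtain ⟨hm4, hm5⟩ := hm3
        have hqm : 2 ≤ q * m := by nlinarith
        have hne : prodAt M (a + q * m) ≠ 0 := by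
          unfold prodAt
          apply mul_ne_zero (by omega)
          rw [Finset.prod_ne_zero_iff]
          intro a' _
          omega
        have key : ∀ v : ℕ, 1 < v → v ∣ prodAt M (a + q * m) → Almost r (b ^ K) v := by
          intro v hv hd
          refine ⟨hv, ?_, ?_⟩
          · refine le_trans ?_ hm5
            show v.primeFactorsList.length ≤ (F M (a + q * m)).natAbs.primeFactorsList.length
            unfold F
            rw [Int.natAbs_natCast]
            exact (Nat.primeFactorsList_sublist_of_dvd hd hne).length_le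
          · intro l hl hlv
            apply hm4 l hl
            show (l : ℤ) ∣ F M (a + q * m)
            unfold F
            exact_mod_cast hlv.trans hd
        refine ⟨⟨hm1, hm2⟩, key _ (by omega) (dvd_first M _), fun a' ha' => key _ ?_ (dvd_other ha' _)⟩
        have h8 : a + q * m ≤ a' * (a + q * m) := Nat.le_mul_of_pos_left _ (hML a' ha').1
        omega)
        ⟨d, hd, (cop_iff' M _ b).2 hd2⟩
      refine le_trans ?_ h7
      rw [← WG_eq hco]
      apply mul_le_mul_of_nonneg_left _ (by positivity)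
      exact WG_anti hPF hNF e2
    · obtain ⟨z, hz⟩ : ∃ z, z = Nat.sqrt (b ^ K) := ⟨_, rfl⟩
      have h7 := h6 (T M q a B L) ((range (z + 1) : Finset ℕ) : Set ℕ) (finite_toSet _)
        (by
          rw [Set.ncard_coe_finset, card_range]
          omega) (by
          intro m hm
          refine ⟨hm.1, ?_⟩
          rcases Nat.lt_or_ge m (z + 1) with h8 | h8
          · left
            rw [mem_coe, mem_range]
            exact h8
          · right
            intro l hl hd
            have hd' : l ∣ prodAt M (a + q * m) := by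
              have hd2 : (l : ℤ) ∣ F M (a + q * m) := hd
              unfold F at hd2
              exact_mod_cast hd2
            have h9 : m ≤ q * m := Nat.le_mul_of_pos_left m hq1
            have h10 : z + 1 ≤ l := by
              unfold prodAt at hd'
              rw [hl.dvd_mul, hl.prime.dvd_finsetProd_iff] at hd'
              rcases hd' with hd' | ⟨a', ha', hd'⟩
              · rw [(Nat.prime_dvd_prime_iff_eq hl hm.2.1).1 hd']
                omega
              · rw [(Nat.prime_dvd_prime_iff_eq hl (hm.2.2 a' ha')).1 hd']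
                have h11 : a + q * m ≤ a' * (a + q * m) := Nat.le_mul_of_pos_left _ (hML a' ha').1
                omega
            calc b ^ K ≤ (z + 1) ^ 2 := by
                  rw [hz, sq]
                  exact (Nat.lt_succ_sqrt _).le
              _ ≤ l ^ 2 := Nat.pow_le_pow_left h10 2
              _ ≤ l ^ r := Nat.pow_le_pow_right (by omega) h2r)
      refine le_trans h7 ?_
      have h8 := hcomp (b ^ K) L (by omega) e2 _ hPF hNF
      rw [← WG_eq hco]
      have hlogL : 0 < Real.log L := Real.log_pos (by exact_mod_cast (by omega : 1 < L))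
      have h9 : 1 / 4 ≤ Real.log ((b ^ K : ℕ) : ℝ) / Real.log L := by
        rw [div_le_div_iff₀ (by norm_num) hlogL, one_mul]
        have h11 : (L : ℝ) ≤ (((b ^ K : ℕ) : ℝ)) ^ 4 := by
          have : L ≤ (b ^ K) ^ 4 := by
            rw [← pow_mul, mul_comm K 4]
            exact e3.le
          exact_mod_cast this
        have h12 := Real.log_le_log (by exact_mod_cast (by omega : 0 < L)) h11
        rw [Real.log_pow] at h12
        push_cast at h12 ⊢
        linarith
      have h10 : (1 / 4 : ℝ) ^ (s + 1) ≤ (Real.log ((b ^ K : ℕ) : ℝ) / Real.log L) ^ (s + 1) :=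
        pow_le_pow_left₀ (by positivity) h9 _
      obtain ⟨W, hW⟩ : ∃ W : ℝ, W = Pool.Agent.Y816.PD.WG (fun m => F M (a + q * m)) (b ^ K) := ⟨_, rfl⟩
      obtain ⟨W', hW'⟩ : ∃ W' : ℝ, W' = Pool.Agent.Y816.PD.WG (fun m => F M (a + q * m)) L := ⟨_, rfl⟩
      rw [← hW] at h8 hW0
      rw [← hW'] at h8
      rw [← hW, ← hW', ← hNA]
      have h11 : c2 * (1 / 4) ^ (s + 1) * W ≤ W' := by
        refine le_trans ?_ h8
        apply mul_le_mul_of_nonneg_right _ hW0
        exact mul_le_mul_of_nonneg_left h10 hc2.le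
      have h12 : W ≤ 4 ^ (s + 1) / c2 * W' := by
        have e5 : W = 4 ^ (s + 1) / c2 * (c2 * (1 / 4) ^ (s + 1) * W) := by
          have h44 : (4 : ℝ) ^ (s + 1) * (1 / 4) ^ (s + 1) = 1 := by
            rw [← mul_pow]
            norm_num
          calc W = (4 ^ (s + 1) * (1 / 4) ^ (s + 1)) * W := by rw [h44, one_mul]
            _ = _ := by field_simp
        rw [e5]
        exact mul_le_mul_of_nonneg_left h11 (by positivity)
      calc C * Pool.Agent.Y816.PD.NA K A * W ≤ C * Pool.Agent.Y816.PD.NA K A * (4 ^ (s + 1) / c2 * W') :=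
            mul_le_mul_of_nonneg_left h12 (by positivity)
        _ = _ := by ring

end Pool.Agent.Results.MP_bca3e5_nt.RestrictedDigits
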